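import Pool.Agent.W795.ES.Stm

/-!
Project ES, part CONC: the bilinear map behind the tensor square and the smooth elements, in a
domain.
-/

set_option autoImplicit false
set_option linter.unusedSectionVars false

open MeasureTheory Set Filter Topology
open scoped InnerProductSpace ENNReal ContDiff NNReal

namespace Pool.Agent.W91.ES

open H772R2.NS
open Pool.Agent.W795.ES

/-- the tensor `(i, j) ↦ b_i a_j` -/
noncomputable def tn (a b : E3) : M3 := WithLp.toLp 2 fun p => b p.1 * a p.2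

theorem tn_apply (a b : E3) (p : Fin 3 × Fin 3) : tn a b p = b p.1 * a p.2 := rfl

theorem norm_tn (a b : E3) : ‖tn a b‖ = ‖a‖ * ‖b‖ := by
  have h : ‖tn a b‖ ^ 2 = (‖a‖ * ‖b‖) ^ 2 := by
    rw [norm_sq_M3, mul_pow, norm_sq_E3, norm_sq_E3, mul_comm, Finset.sum_mul_sum]
    simp only [tn_apply, mul_pow]
  exact (pow_left_inj₀ (norm_nonneg _) (by positivity) (by norm_num)).mp h

theorem tn_self (a : E3) : tn a a = tens a := rfl

theorem continuous_tn : Continuous fun q : E3 × E3 => tn q.1 q.2 := by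
  unfold tn
  refine (PiLp.continuous_toLp 2 _).comp ?_
  refine continuous_pi (fun p => ?_)
  fun_prop

variable {Ω : Set E3}

theorem eLpNorm_tn_le (v w : E3 → E3) {μ : Measure E3} (hv : AEStronglyMeasurable v μ)
    (hw : AEStronglyMeasurable w μ) :
    eLpNorm (fun x => tn (v x) (w x)) 2 μ ≤ eLpNorm v 4 μ * eLpNorm w 4 μ := by
  have hT : ENNReal.HolderTriple 4 4 2 := ⟨by
    rw [← two_mul]
    have h4 : (4 : ℝ≥0∞) = 2 * 2 := by norm_num
    rw [h4, ENNReal.mul_inv (by norm_num) (by norm_num), ← mul_assoc,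
      ENNReal.mul_inv_cancel (by norm_num) (by norm_num), one_mul]⟩
  have h2 := eLpNorm_le_eLpNorm_mul_eLpNorm'_of_norm (p := 4) (q := 4) (r := 2) hv hw
    tn 1 (Eventually.of_forall (fun x => by
      rw [norm_tn]; simp)) (μ := μ)
  rwa [ENNReal.coe_one, one_mul] at h2

theorem memLp_tn (hΩ : MeasurableSet Ω) {p q : L2V Ω × L2M Ω} (hp : p ∈ graphW Ω)
    (hq : q ∈ graphW Ω) : MemLp (fun x => tn (p.1 x) (q.1 x)) 2 (volume.restrict Ω) := by
  refine ⟨continuous_tn.comp_aestronglyMeasurable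
    ((Lp.aestronglyMeasurable p.1).prodMk (Lp.aestronglyMeasurable q.1)), ?_⟩
  refine (eLpNorm_tn_le _ _ (Lp.aestronglyMeasurable _) (Lp.aestronglyMeasurable _)).trans_lt ?_
  exact ENNReal.mul_lt_top (four_lt_top hΩ hp) (four_lt_top hΩ hq)

open Classical in
/-- the bilinear map into `L²` -/
noncomputable def BL (v w : L2V Ω) : L2M Ω :=
  if h : MemLp (fun x => tn (v x) (w x)) 2 (volume.restrict Ω) then h.toLp _ else 0

theorem BL_coe (hΩ : MeasurableSet Ω) {p q : L2V Ω × L2M Ω} (hp : p ∈ graphW Ω)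
    (hq : q ∈ graphW Ω) :
    (BL p.1 q.1 : E3 → M3) =ᵐ[volume.restrict Ω] fun x => tn (p.1 x) (q.1 x) := by
  unfold BL
  rw [dif_pos (memLp_tn hΩ hp hq)]
  exact MemLp.coeFn_toLp _

theorem norm_BL (hΩ : MeasurableSet Ω) {p q : L2V Ω × L2M Ω} (hp : p ∈ graphW Ω)
    (hq : q ∈ graphW Ω) : ‖BL p.1 q.1‖ ≤ n4 p.1 * n4 q.1 := by
  rw [Lp.norm_def, eLpNorm_congr_ae (BL_coe hΩ hp hq)]
  unfold n4
  rw [← ENNReal.toReal_mul]
  refine ENNReal.toReal_mono (ENNReal.mul_lt_top (four_lt_top hΩ hp) (four_lt_top hΩ hq)).ne ?_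
  exact eLpNorm_tn_le _ _ (Lp.aestronglyMeasurable _) (Lp.aestronglyMeasurable _)

theorem BL_diag (p : L2V Ω) : BL p p = tensL p := rfl

attribute [local irreducible] BL

theorem BL_linl (hΩ : MeasurableSet Ω) {p q r : L2V Ω × L2M Ω} (hp : p ∈ graphW Ω)
    (hq : q ∈ graphW Ω) (hr : r ∈ graphW Ω) (a : ℝ) :
    BL (p.1 + a • q.1) r.1 = BL p.1 r.1 + a • BL q.1 r.1 := by
  have hpq : p + a • q ∈ graphW Ω := (graphW Ω).add_mem hp ((graphW Ω).smul_mem a hq)
  apply Lp.ext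
  have e1 : (BL (p.1 + a • q.1) r.1 : E3 → M3) =ᵐ[volume.restrict Ω]
      fun x => tn ((p.1 + a • q.1 : L2V Ω) x) (r.1 x) := BL_coe hΩ hpq hr
  filter_upwards [e1, BL_coe hΩ hp hr, BL_coe hΩ hq hr, Lp.coeFn_add p.1 (a • q.1),
    Lp.coeFn_smul a q.1, Lp.coeFn_add (BL p.1 r.1) (a • BL q.1 r.1),
    Lp.coeFn_smul a (BL q.1 r.1)] with x h1 h2 h3 h4 h5 h6 h7
  rw [h1, h6, Pi.add_apply, h7, Pi.smul_apply, h2, h3, h4, Pi.add_apply, h5, Pi.smul_apply]
  ext i
  simp only [tn_apply, PiLp.add_apply, PiLp.smul_apply, smul_eq_mul]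
  ring

theorem BL_linr (hΩ : MeasurableSet Ω) {p q r : L2V Ω × L2M Ω} (hp : p ∈ graphW Ω)
    (hq : q ∈ graphW Ω) (hr : r ∈ graphW Ω) (a : ℝ) :
    BL r.1 (p.1 + a • q.1) = BL r.1 p.1 + a • BL r.1 q.1 := by
  have hpq : p + a • q ∈ graphW Ω := (graphW Ω).add_mem hp ((graphW Ω).smul_mem a hq)
  apply Lp.ext
  have e1 : (BL r.1 (p.1 + a • q.1) : E3 → M3) =ᵐ[volume.restrict Ω]
      fun x => tn (r.1 x) ((p.1 + a • q.1 : L2V Ω) x) := BL_coe hΩ hr hpq
  filter_upwards [e1, BL_coe hΩ hr hp, BL_coe hΩ hr hq, Lp.coeFn_add p.1 (a • q.1),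
    Lp.coeFn_smul a q.1, Lp.coeFn_add (BL r.1 p.1) (a • BL r.1 q.1),
    Lp.coeFn_smul a (BL r.1 q.1)] with x h1 h2 h3 h4 h5 h6 h7
  rw [h1, h6, Pi.add_apply, h7, Pi.smul_apply, h2, h3, h4, Pi.add_apply, h5, Pi.smul_apply]
  ext i
  simp only [tn_apply, PiLp.add_apply, PiLp.smul_apply, smul_eq_mul]
  ring

theorem n4_tendsto (hΩ : MeasurableSet Ω) {p : L2V Ω × L2M Ω} (hp : p ∈ graphW Ω) :
    Tendsto (fun q : L2V Ω × L2M Ω => n4 (q - p).1) (𝓝[(graphW Ω : Set (L2V Ω × L2M Ω))] p)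
      (𝓝 0) := by
  have h0 : Tendsto (fun q : L2V Ω × L2M Ω => q - p) (𝓝[(graphW Ω : Set _)] p) (𝓝 0) := by
    have : Tendsto (fun q : L2V Ω × L2M Ω => q - p) (𝓝 p) (𝓝 (p - p)) :=
      (continuous_id.sub continuous_const).tendsto p
    rw [sub_self] at this
    exact this.mono_left nhdsWithin_le_nhds
  have hB : Tendsto (fun q : L2V Ω × L2M Ω => (CS : ℝ) ^ 3 * (‖(q - p).1‖ * ‖(q - p).2‖ ^ 3))
      (𝓝[(graphW Ω : Set _)] p) (𝓝 0) := by
    have hc : Continuous (fun q : L2V Ω × L2M Ω => (CS : ℝ) ^ 3 * (‖q.1‖ * ‖q.2‖ ^ 3)) := by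
      fun_prop
    have := (hc.tendsto 0).comp h0
    simpa [Function.comp_def] using this
  have h4 : Tendsto (fun q : L2V Ω × L2M Ω => n4 (q - p).1 ^ 4) (𝓝[(graphW Ω : Set _)] p)
      (𝓝 0) := by
    refine squeeze_zero' (Eventually.of_forall (fun q => by positivity)) ?_ hB
    filter_upwards [self_mem_nhdsWithin] with q hq
    exact n4_pow hΩ ((graphW Ω).sub_mem hq hp)
  have s0 : Tendsto Real.sqrt (𝓝 0) (𝓝 0) := by
    simpa using Real.continuous_sqrt.tendsto 0
  have h5 := s0.comp (s0.comp h4)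
  refine h5.congr (fun q => ?_)
  have hnn : 0 ≤ n4 (q - p).1 := ENNReal.toReal_nonneg
  simp only [Function.comp]
  rw [show n4 (q - p).1 ^ 4 = (n4 (q - p).1 ^ 2) ^ 2 by ring, Real.sqrt_sq (by positivity),
    Real.sqrt_sq hnn]

theorem BL_cont1 (hΩ : MeasurableSet Ω) {r : L2V Ω × L2M Ω} (hr : r ∈ graphW Ω) :
    ContinuousOn (fun p : L2V Ω × L2M Ω => BL p.1 r.1) (graphW Ω : Set (L2V Ω × L2M Ω)) := by
  intro p hp
  rw [ContinuousWithinAt, tendsto_iff_norm_sub_tendsto_zero]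
  have hlim : Tendsto (fun q : L2V Ω × L2M Ω => n4 (q - p).1 * n4 r.1)
      (𝓝[(graphW Ω : Set _)] p) (𝓝 0) := by
    have := (n4_tendsto hΩ hp).mul_const (n4 r.1)
    simpa using this
  refine squeeze_zero' (Eventually.of_forall (fun q => norm_nonneg _)) ?_ hlim
  filter_upwards [self_mem_nhdsWithin] with q hq
  have e1 : BL q.1 r.1 - BL p.1 r.1 = BL (q - p).1 r.1 := by
    have h1 := BL_linl hΩ hq hp hr (-1)
    have h2 : q.1 + (-1 : ℝ) • p.1 = (q - p).1 := by
      rw [neg_one_smul, ← sub_eq_add_neg]; rfl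
    rw [h2] at h1
    rw [h1, neg_one_smul, ← sub_eq_add_neg]
  rw [e1]
  exact norm_BL hΩ ((graphW Ω).sub_mem hq hp) hr

theorem BL_cont2 (hΩ : MeasurableSet Ω) {r : L2V Ω × L2M Ω} (hr : r ∈ graphW Ω) :
    ContinuousOn (fun p : L2V Ω × L2M Ω => BL r.1 p.1) (graphW Ω : Set (L2V Ω × L2M Ω)) := by
  intro p hp
  rw [ContinuousWithinAt, tendsto_iff_norm_sub_tendsto_zero]
  have hlim : Tendsto (fun q : L2V Ω × L2M Ω => n4 r.1 * n4 (q - p).1)
      (𝓝[(graphW Ω : Set _)] p) (𝓝 0) := by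
    have := (n4_tendsto hΩ hp).const_mul (n4 r.1)
    simpa using this
  refine squeeze_zero' (Eventually.of_forall (fun q => norm_nonneg _)) ?_ hlim
  filter_upwards [self_mem_nhdsWithin] with q hq
  have e1 : BL r.1 q.1 - BL r.1 p.1 = BL r.1 (q - p).1 := by
    have h1 := BL_linr hΩ hq hp hr (-1)
    have h2 : q.1 + (-1 : ℝ) • p.1 = (q - p).1 := by
      rw [neg_one_smul, ← sub_eq_add_neg]; rfl
    rw [h2] at h1
    rw [h1, neg_one_smul, ← sub_eq_add_neg]
  rw [e1]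
  exact norm_BL hΩ hr ((graphW Ω).sub_mem hq hp)

/-- `∫ (φ·∇)ψ · ψ = 0` for divergence free test fields. -/
theorem test_zero {φ ψ : E3 → E3} (hφ : IsTest Ω φ) (h : IsTest Ω ψ) :
    ∫ x, ⟪tn (φ x) (ψ x), jac ψ x⟫_ℝ = 0 := by
  let g : E3 → ℝ := fun x => ∑ i, ψ x i ^ 2
  have hg : ContDiff ℝ ∞ g := ContDiff.sum (fun i _ => (contDiff_coord h.smooth i).pow 2)
  have hgc : HasCompactSupport g := by
    refine h.compact.mono (fun x hx => ?_)
    intro h0
    apply hx
    simp [g, h0]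
  have hgd : ∀ x j, fderiv ℝ g x (ev j) = ∑ i, 2 * ψ x i * jac ψ x (i, j) := by
    intro x j
    have h1 : ∀ i ∈ Finset.univ, DifferentiableAt ℝ (fun x => ψ x i ^ 2) x := fun i _ =>
      (((contDiff_coord h.smooth i).pow 2).differentiable (by simp)) x
    have h2 : fderiv ℝ g x = ∑ i, fderiv ℝ (fun x => ψ x i ^ 2) x := by
      have : g = fun x => ∑ i, ψ x i ^ 2 := rfl
      rw [this, fderiv_fun_sum h1]
    rw [h2, _root_.sum_apply]
    refine Finset.sum_congr rfl (fun i _ => ?_)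
    have h3 : DifferentiableAt ℝ (fun x => ψ x i) x :=
      ((contDiff_coord h.smooth i).differentiable (by simp)) x
    rw [fderiv_fun_pow 2 h3]
    simp only [_root_.smul_apply, smul_eq_mul]
    rw [fderiv_coord h.smooth, jac_apply]
    simp
  have hcont : ∀ j, Continuous (fun x => fderiv ℝ g x (ev j)) := fun j =>
    (hg.continuous_fderiv (by simp)).clm_apply continuous_const
  have hcontφ : ∀ j, Continuous (fun x => fderiv ℝ (fun y => φ y j) x (ev j)) := fun j =>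
    ((contDiff_coord hφ.smooth j).continuous_fderiv (by simp)).clm_apply continuous_const
  have hφc : ∀ j, Continuous (fun x => φ x j) := fun j => (contDiff_coord hφ.smooth j).continuous
  have hibp : ∀ j, ∫ x, φ x j * fderiv ℝ g x (ev j)
      = - ∫ x, fderiv ℝ (fun y => φ y j) x (ev j) * g x := by
    intro j
    apply integral_mul_fderiv_eq_neg_fderiv_mul_of_integrable
    · exact ((hcontφ j).mul hg.continuous).integrable_of_hasCompactSupport (hgc.mul_left)
    · exact ((hφc j).mul (hcont j)).integrable_of_hasCompactSupport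
        ((hasCompactSupport_coord hφ.compact j).mul_right)
    · exact ((hφc j).mul hg.continuous).integrable_of_hasCompactSupport (hgc.mul_left)
    · intro x _
      exact ((contDiff_coord hφ.smooth j).differentiable (by simp)) x
    · intro x _
      exact (hg.differentiable (by simp)) x
  have hpt : ∀ x, ⟪tn (φ x) (ψ x), jac ψ x⟫_ℝ = (1 / 2) * ∑ j, φ x j * fderiv ℝ g x (ev j) := by
    intro x
    rw [inner_M3]
    simp only [hgd, tn_apply, Finset.mul_sum]
    rw [Finset.sum_comm]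
    refine Finset.sum_congr rfl (fun j _ => Finset.sum_congr rfl (fun i _ => ?_))
    ring
  have hint1 : ∀ j ∈ Finset.univ, Integrable (fun x => φ x j * fderiv ℝ g x (ev j)) := fun j _ =>
    ((hφc j).mul (hcont j)).integrable_of_hasCompactSupport
        ((hasCompactSupport_coord hφ.compact j).mul_right)
  have hint2 : ∀ j ∈ Finset.univ, Integrable (fun x => fderiv ℝ (fun y => φ y j) x (ev j) * g x) :=
    fun j _ => ((hcontφ j).mul hg.continuous).integrable_of_hasCompactSupport (hgc.mul_left)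
  simp_rw [hpt]
  rw [integral_const_mul, integral_finsetSum _ hint1]
  simp_rw [hibp]
  rw [Finset.sum_neg_distrib, ← integral_finsetSum _ hint2]
  have hz : ∀ x, ∑ j, fderiv ℝ (fun y => φ y j) x (ev j) * g x = 0 := by
    intro x
    rw [← Finset.sum_mul]
    have : ∑ j, fderiv ℝ (fun y => φ y j) x (ev j) = 0 := by
      simp_rw [fderiv_coord hφ.smooth]
      exact hφ.divfree x
    rw [this, zero_mul]
  simp [hz]

theorem preW_le : preW Ω ≤ graphW Ω := Submodule.le_topologicalClosure _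

theorem inner_BL_zero (hΩ : MeasurableSet Ω) {p q : L2V Ω × L2M Ω} (hp : p ∈ graphW Ω)
    (hq : q ∈ graphW Ω) : ⟪BL p.1 q.1, q.2⟫_ℝ = 0 := by
  -- first for test fields `q`
  have step : ∀ q ∈ preW Ω, ∀ p ∈ graphW Ω, ⟪BL p.1 q.1, q.2⟫_ℝ = 0 := by
    intro q hq p hp
    have hqW : q ∈ graphW Ω := preW_le hq
    refine graphW_induction (fun p => ⟪BL p.1 q.1, q.2⟫_ℝ)
      ((BL_cont1 hΩ hqW).inner continuousOn_const) ?_ hp
    intro p hp
    have hpW : p ∈ graphW Ω := preW_le hp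
    obtain ⟨φ, h1, h2, -⟩ := hp
    obtain ⟨ψ, g1, g2, g3⟩ := hq
    have e1 : ⟪BL p.1 q.1, q.2⟫_ℝ = ∫ x in Ω, ⟪tn (φ x) (ψ x), jac ψ x⟫_ℝ := by
      rw [L2.inner_def]
      apply integral_congr_ae
      filter_upwards [BL_coe hΩ hpW hqW, h2, g2, g3] with x a b c d
      rw [a, b, c, d]
    show ⟪BL p.1 q.1, q.2⟫_ℝ = 0
    rw [e1, setIntegral_eq_integral_of_forall_compl_eq_zero]
    · exact test_zero h1 g1
    · intro x hx
      have : jac ψ x = 0 := by
        apply image_eq_zero_of_notMem_tsupport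
        intro hc
        exact hx (g1.supp (tsupport_jac_subset hc))
      rw [this, inner_zero_right]
  refine graphW_induction (fun q => ⟪BL p.1 q.1, q.2⟫_ℝ)
    ((BL_cont2 hΩ hp).inner continuous_snd.continuousOn) ?_ hq
  intro q hq
  exact step q hq p hp

theorem BL_anti (hΩ : MeasurableSet Ω) {p q r : L2V Ω × L2M Ω} (hp : p ∈ graphW Ω)
    (hq : q ∈ graphW Ω) (hr : r ∈ graphW Ω) :
    ⟪BL p.1 q.1, r.2⟫_ℝ = -⟪BL p.1 r.1, q.2⟫_ℝ := by
  have h1 := inner_BL_zero hΩ hp ((graphW Ω).add_mem hq hr)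
  have h2 : BL p.1 (q + r).1 = BL p.1 q.1 + BL p.1 r.1 := by
    have h3 := BL_linr hΩ hq hr hp 1
    rw [one_smul, one_smul] at h3
    exact h3
  rw [h2, Prod.snd_add, inner_add_left, inner_add_right, inner_add_right,
    inner_BL_zero hΩ hp hq, inner_BL_zero hΩ hp hr] at h1
  linarith

theorem tri (hΩ : MeasurableSet Ω) : Tri (graphW Ω) tensL (BL (Ω := Ω)) where
  diag := fun p _ => BL_diag p.1
  linl := fun p hp q hq r hr a => BL_linl hΩ hp hq hr a
  linr := fun p hp q hq r hr a => BL_linr hΩ hp hq hr a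
  anti := fun p hp q hq r hr => BL_anti hΩ hp hq hr

/-! ### smooth elements -/

/-- the Laplacian of a test field -/
noncomputable def lapl (φ : E3 → E3) (x : E3) : E3 :=
  WithLp.toLp 2 fun i => ∑ j, fderiv ℝ (fun y => fderiv ℝ (fun z => φ z i) y (ev j)) x (ev j)

theorem contDiff_d {φ : E3 → E3} (h : ContDiff ℝ ∞ φ) (i j : Fin 3) :
    ContDiff ℝ ∞ (fun y => fderiv ℝ (fun z => φ z i) y (ev j)) :=
  ((contDiff_coord h i).fderiv_right (m := ∞) (by simp)).clm_apply contDiff_const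

theorem compact_d {φ : E3 → E3} (h : HasCompactSupport φ) (i j : Fin 3) :
    HasCompactSupport (fun y => fderiv ℝ (fun z => φ z i) y (ev j)) :=
  (hasCompactSupport_coord h i).fderiv_apply ℝ _

theorem continuous_lapl {φ : E3 → E3} (h : ContDiff ℝ ∞ φ) : Continuous (lapl φ) := by
  unfold lapl
  refine (PiLp.continuous_toLp 2 _).comp ?_
  refine continuous_pi (fun i => ?_)
  refine continuous_finsetSum _ fun j _ => ?_
  exact ((contDiff_d h i j).continuous_fderiv (by simp)).clm_apply continuous_const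

theorem compact_lapl {φ : E3 → E3} (h : HasCompactSupport φ) : HasCompactSupport (lapl φ) := by
  have h1 : ∀ i j, HasCompactSupport
      (fun x => fderiv ℝ (fun y => fderiv ℝ (fun z => φ z i) y (ev j)) x (ev j)) := fun i j =>
    (compact_d h i j).fderiv_apply ℝ _
  refine HasCompactSupport.intro
    (isCompact_iUnion fun i => isCompact_iUnion fun j => h1 i j) (fun x hx => ?_)
  simp only [mem_iUnion, not_exists] at hx
  ext i
  show ∑ j, fderiv ℝ (fun y => fderiv ℝ (fun z => φ z i) y (ev j)) x (ev j) = 0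
  refine Finset.sum_eq_zero fun j _ => ?_
  exact image_eq_zero_of_notMem_tsupport
    (f := fun x => fderiv ℝ (fun y => fderiv ℝ (fun z => φ z i) y (ev j)) x (ev j)) (hx i j)

theorem lapl_test {φ ψ : E3 → E3} (hφ : IsTest Ω φ) (hψ : IsTest Ω ψ) :
    ∫ x, ⟪jac ψ x, jac φ x⟫_ℝ = -∫ x, ⟪ψ x, lapl φ x⟫_ℝ := by
  have hφd : ∀ i j, Continuous (fun y => fderiv ℝ (fun z => φ z i) y (ev j)) := fun i j =>
    (contDiff_d hφ.smooth i j).continuous
  have hψd : ∀ i j, Continuous (fun y => fderiv ℝ (fun z => ψ z i) y (ev j)) := fun i j =>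
    (contDiff_d hψ.smooth i j).continuous
  have hφdd : ∀ i j, Continuous
      (fun x => fderiv ℝ (fun y => fderiv ℝ (fun z => φ z i) y (ev j)) x (ev j)) := fun i j =>
    ((contDiff_d hφ.smooth i j).continuous_fderiv (by simp)).clm_apply continuous_const
  have hψc : ∀ i, Continuous (fun x => ψ x i) := fun i => (contDiff_coord hψ.smooth i).continuous
  have i1 : ∀ i j, Integrable (fun x => fderiv ℝ (fun z => ψ z i) x (ev j) *
      fderiv ℝ (fun z => φ z i) x (ev j)) := fun i j =>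
    ((hψd i j).mul (hφd i j)).integrable_of_hasCompactSupport ((compact_d hφ.compact i j).mul_left)
  have i2 : ∀ i j, Integrable (fun x => ψ x i *
      fderiv ℝ (fun y => fderiv ℝ (fun z => φ z i) y (ev j)) x (ev j)) := fun i j =>
    ((hψc i).mul (hφdd i j)).integrable_of_hasCompactSupport
      ((hasCompactSupport_coord hψ.compact i).mul_right)
  have i3 : ∀ i j, Integrable (fun x => ψ x i * fderiv ℝ (fun z => φ z i) x (ev j)) := fun i j =>
    ((hψc i).mul (hφd i j)).integrable_of_hasCompactSupport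
      ((hasCompactSupport_coord hψ.compact i).mul_right)
  have hibp : ∀ i j, ∫ x, fderiv ℝ (fun z => ψ z i) x (ev j) * fderiv ℝ (fun z => φ z i) x (ev j)
      = - ∫ x, ψ x i * fderiv ℝ (fun y => fderiv ℝ (fun z => φ z i) y (ev j)) x (ev j) := by
    intro i j
    rw [integral_mul_fderiv_eq_neg_fderiv_mul_of_integrable (i1 i j) (i2 i j) (i3 i j)]
    · ring
    · intro x _; exact ((contDiff_coord hψ.smooth i).differentiable (by simp)) x
    · intro x _; exact ((contDiff_d hφ.smooth i j).differentiable (by simp)) x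
  have e1 : ∀ x, ⟪jac ψ x, jac φ x⟫_ℝ = ∑ i, ∑ j, fderiv ℝ (fun z => ψ z i) x (ev j) *
      fderiv ℝ (fun z => φ z i) x (ev j) := by
    intro x
    rw [inner_M3]
    refine Finset.sum_congr rfl fun i _ => Finset.sum_congr rfl fun j _ => ?_
    rw [jac_apply, jac_apply, fderiv_coord hψ.smooth, fderiv_coord hφ.smooth]
  have e2 : ∀ x, ⟪ψ x, lapl φ x⟫_ℝ = ∑ i, ∑ j, ψ x i *
      fderiv ℝ (fun y => fderiv ℝ (fun z => φ z i) y (ev j)) x (ev j) := by
    intro x
    rw [inner_E3]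
    refine Finset.sum_congr rfl fun i _ => ?_
    rw [← Finset.mul_sum]
    rfl
  simp_rw [e1, e2]
  rw [integral_finsetSum _ (fun i _ => integrable_finsetSum _ (fun j _ => i1 i j)),
    integral_finsetSum _ (fun i _ => integrable_finsetSum _ (fun j _ => i2 i j)),
    ← Finset.sum_neg_distrib]
  refine Finset.sum_congr rfl fun i _ => ?_
  rw [integral_finsetSum _ (fun j _ => i1 i j), integral_finsetSum _ (fun j _ => i2 i j),
    ← Finset.sum_neg_distrib]
  exact Finset.sum_congr rfl fun j _ => hibp i j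

theorem lap_graph {φ : E3 → E3} (hφ : IsTest Ω φ) (q : L2V Ω × L2M Ω)
    (hq : q.2 =ᵐ[volume.restrict Ω] jac φ) :
    ∃ l : L2V Ω, ∀ p ∈ graphW Ω, ⟪p.2, q.2⟫_ℝ = -⟪p.1, l⟫_ℝ := by
  have hL : MemLp (lapl φ) 2 (volume.restrict Ω) :=
    ((continuous_lapl hφ.smooth).memLp_of_hasCompactSupport (compact_lapl hφ.compact)).restrict Ω
  refine ⟨hL.toLp _, fun p hp => ?_⟩
  have hcont : Continuous (fun p : L2V Ω × L2M Ω => ⟪p.2, q.2⟫_ℝ + ⟪p.1, hL.toLp _⟫_ℝ) := by
    fun_prop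
  have hz := graphW_induction (fun p : L2V Ω × L2M Ω => ⟪p.2, q.2⟫_ℝ + ⟪p.1, hL.toLp _⟫_ℝ)
    hcont.continuousOn (by
      rintro p ⟨ψ, g1, g2, g3⟩
      show ⟪p.2, q.2⟫_ℝ + ⟪p.1, hL.toLp _⟫_ℝ = 0
      have e1 : ⟪p.2, q.2⟫_ℝ = ∫ x in Ω, ⟪jac ψ x, jac φ x⟫_ℝ := by
        rw [L2.inner_def]
        apply integral_congr_ae
        filter_upwards [g3, hq] with x a b
        rw [a, b]
      have e2 : ⟪p.1, hL.toLp _⟫_ℝ = ∫ x in Ω, ⟪ψ x, lapl φ x⟫_ℝ := by
        rw [L2.inner_def]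
        apply integral_congr_ae
        filter_upwards [g2, hL.coeFn_toLp] with x a b
        rw [a, b]
      rw [e1, e2, setIntegral_eq_integral_of_forall_compl_eq_zero,
        setIntegral_eq_integral_of_forall_compl_eq_zero, lapl_test hφ g1]
      · ring
      · intro x hx
        have : ψ x = 0 := image_eq_zero_of_notMem_tsupport (fun hc => hx (g1.supp hc))
        rw [this, inner_zero_left]
      · intro x hx
        have : jac ψ x = 0 := image_eq_zero_of_notMem_tsupport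
          (fun hc => hx (g1.supp (tsupport_jac_subset hc)))
        rw [this, inner_zero_left]) hp
  linarith

theorem exists_bound {F : Type*} [NormedAddCommGroup F] {f : E3 → F} (hf : Continuous f)
    (hc : HasCompactSupport f) : ∃ C : ℝ, 0 ≤ C ∧ ∀ x, ‖f x‖ ≤ C := by
  obtain ⟨C, hC⟩ := hf.bounded_above_of_compact_support hc
  exact ⟨C, (norm_nonneg _).trans (hC 0), hC⟩

/-- Cauchy-Schwarz for the norms -/
theorem int_norm_mul (v w : L2V Ω) :
    Integrable (fun x => ‖v x‖ * ‖w x‖) (volume.restrict Ω) ∧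
    ∫ x in Ω, ‖v x‖ * ‖w x‖ ≤ ‖v‖ * ‖w‖ := by
  have hv : MemLp (fun x => ‖v x‖) 2 (volume.restrict Ω) := (Lp.memLp v).norm
  have hw : MemLp (fun x => ‖w x‖) 2 (volume.restrict Ω) := (Lp.memLp w).norm
  refine ⟨hv.integrable_mul hw, ?_⟩
  have e1 : ∫ x in Ω, ‖v x‖ * ‖w x‖ = ⟪hv.toLp _, hw.toLp _⟫_ℝ := by
    rw [L2.inner_def]
    apply integral_congr_ae
    filter_upwards [hv.coeFn_toLp, hw.coeFn_toLp] with x a b
    rw [a, b]
    simp [mul_comm]
  rw [e1]
  refine (real_inner_le_norm _ _).trans (le_of_eq ?_)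
  rw [Lp.norm_toLp, Lp.norm_toLp, Lp.norm_def, Lp.norm_def, eLpNorm_norm, eLpNorm_norm]

theorem proof : S_conc := by
  intro Ω hΩo _
  have hΩ : MeasurableSet Ω := hΩo.measurableSet
  refine ⟨BL, tri hΩ, fun φ hφ => ?_⟩
  have m1 : MemLp φ 2 (volume.restrict Ω) := (hφ.memLp 2).restrict Ω
  have m2 : MemLp (jac φ) 2 (volume.restrict Ω) := (hφ.jac_memLp 2).restrict Ω
  set q : L2V Ω × L2M Ω := (m1.toLp _, m2.toLp _) with hq
  have q1 : q.1 =ᵐ[volume.restrict Ω] φ := m1.coeFn_toLp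
  have q2 : q.2 =ᵐ[volume.restrict Ω] jac φ := m2.coeFn_toLp
  have hqp : q ∈ preW Ω := ⟨φ, hφ, q1, q2⟩
  have hqW : q ∈ graphW Ω := preW_le hqp
  obtain ⟨S₁, hS₁, b₁⟩ := exists_bound hφ.smooth.continuous hφ.compact
  obtain ⟨S₂, hS₂, b₂⟩ := exists_bound (continuous_jac hφ.smooth) (hasCompactSupport_jac hφ.compact)
  obtain ⟨l, hl⟩ := lap_graph hφ q q2
  refine ⟨‖l‖ + S₁ + S₂, q, by positivity, ⟨hqW, ?_, ?_, ?_⟩, q1, q2⟩
  · intro p hp
    rw [hl p hp, abs_neg]
    refine (abs_real_inner_le_norm _ _).trans ?_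
    rw [mul_comm]
    exact mul_le_mul_of_nonneg_right (by linarith) (norm_nonneg _)
  · intro p hp r hr
    have h1 : |⟪BL p.1 r.1, q.2⟫_ℝ| ≤ S₂ * (‖p.1‖ * ‖r.1‖) := by
      obtain ⟨i1, i2⟩ := int_norm_mul p.1 r.1
      rw [L2.inner_def]
      calc |∫ x in Ω, ⟪BL p.1 r.1 x, q.2 x⟫_ℝ| ≤ ∫ x in Ω, S₂ * (‖p.1 x‖ * ‖r.1 x‖) := by
            rw [← Real.norm_eq_abs]
            apply norm_integral_le_of_norm_le (i1.const_mul S₂)
            filter_upwards [BL_coe hΩ hp hr, q2] with x a b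
            rw [a, b]
            refine (norm_inner_le_norm _ _).trans ?_
            rw [norm_tn, mul_comm]
            exact mul_le_mul_of_nonneg_right (b₂ x) (by positivity)
        _ = S₂ * ∫ x in Ω, ‖p.1 x‖ * ‖r.1 x‖ := integral_const_mul _ _
        _ ≤ S₂ * (‖p.1‖ * ‖r.1‖) := mul_le_mul_of_nonneg_left i2 hS₂
    refine h1.trans (mul_le_mul_of_nonneg_right ?_ (by positivity))
    have := norm_nonneg l
    linarith
  · intro p hp r _
    have h1 : ‖BL q.1 p.1‖ ≤ S₁ * ‖p.1‖ := by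
      apply Lp.norm_le_mul_norm_of_ae_le_mul
      filter_upwards [BL_coe hΩ hqW hp, q1] with x a b
      rw [a, b, norm_tn]
      exact mul_le_mul_of_nonneg_right (b₁ x) (norm_nonneg _)
    refine (abs_real_inner_le_norm _ _).trans ?_
    have h2 := mul_le_mul_of_nonneg_right h1 (norm_nonneg r.2)
    refine h2.trans ?_
    rw [mul_assoc]
    refine mul_le_mul_of_nonneg_right ?_ (by positivity)
    have := norm_nonneg l
    linarith

end Pool.Agent.W91.ES
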